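import Mathlib

/-!
Project GF (GF/2A, helper278): a family of valuations along an ultrafilter which is negative on a function is
positive on some irreducible polynomial in a transcendence basis of elements with valuation zero.
-/

set_option autoImplicit false

open MvPolynomial Filter

namespace Pool.Agent.N278.GF

section

variable {k K : Type} [Field k] [Field K] [Algebra k K] {β : Type} (𝒱 : Ultrafilter β)
  (v : β → K → ℤ)

/-- a family of functions which are valuations along the ultrafilter -/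
structure Vl : Prop where
  mul : ∀ f g, f ≠ 0 → g ≠ 0 → ∀ᶠ x in (𝒱 : Filter β), v x (f * g) = v x f + v x g
  add : ∀ f g, f ≠ 0 → g ≠ 0 → f + g ≠ 0 →
    ∀ᶠ x in (𝒱 : Filter β), min (v x f) (v x g) ≤ v x (f + g)
  const : ∀ c : k, c ≠ 0 → ∀ᶠ x in (𝒱 : Filter β), v x (algebraMap k K c) = 0

variable {𝒱 v}

theorem Vl.one (h : Vl (k := k) 𝒱 v) : ∀ᶠ x in (𝒱 : Filter β), v x 1 = 0 := by
  have := h.const 1 one_ne_zero
  rwa [map_one] at this

/-- the valuation ring -/
def Vl.A (h : Vl (k := k) 𝒱 v) : ValuationSubring K where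
  carrier := {f | f = 0 ∨ ∀ᶠ x in (𝒱 : Filter β), 0 ≤ v x f}
  mul_mem' := by
    intro f g hf hg
    by_cases h1 : f = 0
    · left
      rw [h1, zero_mul]
    by_cases h2 : g = 0
    · left
      rw [h2, mul_zero]
    right
    filter_upwards [h.mul f g h1 h2, hf.resolve_left h1, hg.resolve_left h2] with x e1 e2 e3
    rw [e1]
    exact add_nonneg e2 e3
  one_mem' := by
    right
    filter_upwards [h.one] with x e
    rw [e]
  add_mem' := by
    intro f g hf hg
    by_cases h1 : f = 0
    · rw [h1, zero_add]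
      exact hg
    by_cases h2 : g = 0
    · rw [h2, add_zero]
      exact hf
    by_cases h3 : f + g = 0
    · exact Or.inl h3
    right
    filter_upwards [h.add f g h1 h2 h3, hf.resolve_left h1, hg.resolve_left h2] with x e1 e2 e3
    exact (le_min e2 e3).trans e1
  zero_mem' := Or.inl rfl
  neg_mem' := by
    intro f hf
    by_cases h1 : f = 0
    · left
      rw [h1, neg_zero]
    right
    have h2 := h.const (-1) (by simp)
    have h3 := h.mul (algebraMap k K (-1)) f (by simp) h1
    filter_upwards [h2, h3, hf.resolve_left h1] with x e1 e2 e3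
    rw [map_neg, map_one, neg_one_mul] at e2
    rw [map_neg, map_one] at e1
    rw [e2, e1, zero_add]
    exact e3
  mem_or_inv_mem' := by
    intro f
    by_cases h1 : f = 0
    · left
      exact Or.inl h1
    rcases Ultrafilter.em 𝒱 (fun x => 0 ≤ v x f) with h2 | h2
    · left
      exact Or.inr h2
    · right
      right
      have h3 := h.mul f f⁻¹ h1 (inv_ne_zero h1)
      rw [mul_inv_cancel₀ h1] at h3
      filter_upwards [h2, h3, h.one] with x e1 e2 e3
      omega

theorem Vl.mem_A (h : Vl (k := k) 𝒱 v) (f : K) :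
    f ∈ h.A ↔ f = 0 ∨ ∀ᶠ x in (𝒱 : Filter β), 0 ≤ v x f := Iff.rfl

theorem Vl.algebraMap_mem (h : Vl (k := k) 𝒱 v) (c : k) : algebraMap k K c ∈ h.A := by
  rw [h.mem_A]
  by_cases hc : c = 0
  · left
    rw [hc, map_zero]
  · right
    filter_upwards [h.const c hc] with x e
    rw [e]

variable {w : ℕ} {b : Fin w → K}

theorem Vl.aeval_mem (h : Vl (k := k) 𝒱 v) (hb0 : ∀ i, ∀ᶠ x in (𝒱 : Filter β), v x (b i) = 0)
    (F : MvPolynomial (Fin w) k) : aeval b F ∈ h.A := by
  induction F using MvPolynomial.induction_on with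
  | C c =>
    rw [aeval_C]
    exact h.algebraMap_mem c
  | add p q hp hq =>
    rw [map_add]
    exact add_mem hp hq
  | mul_X p i hp =>
    rw [map_mul, aeval_X]
    refine mul_mem hp ?_
    rw [h.mem_A]
    right
    filter_upwards [hb0 i] with x e
    rw [e]

theorem Vl.nonneg (h : Vl (k := k) 𝒱 v) (hb : AlgebraicIndependent k b)
    (hb0 : ∀ i, ∀ᶠ x in (𝒱 : Filter β), v x (b i) = 0)
    {F : MvPolynomial (Fin w) k} (hF : F ≠ 0) : ∀ᶠ x in (𝒱 : Filter β), 0 ≤ v x (aeval b F) := by
  have h1 := h.aeval_mem hb0 F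
  rw [h.mem_A] at h1
  refine h1.resolve_left ?_
  intro h2
  apply hF
  have h3 : Function.Injective (aeval b : MvPolynomial (Fin w) k →ₐ[k] K) := hb
  exact h3 (by rw [h2, map_zero])

theorem aeval_ne {b : Fin w → K} (hb : AlgebraicIndependent k b)
    {F : MvPolynomial (Fin w) k} (hF : F ≠ 0) : aeval b F ≠ 0 := by
  intro h2
  apply hF
  have h3 : Function.Injective (aeval b : MvPolynomial (Fin w) k →ₐ[k] K) := hb
  exact h3 (by rw [h2, map_zero])

/-- some polynomial has positive valuation -/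
theorem Vl.exists_pos (h : Vl (k := k) 𝒱 v) (htr : Algebra.trdeg k K = w)
    (hb : AlgebraicIndependent k b)
    (hb0 : ∀ i, ∀ᶠ x in (𝒱 : Filter β), v x (b i) = 0) (g : K) (hg0 : g ≠ 0)
    (hg : ∀ᶠ x in (𝒱 : Filter β), v x g < 0) :
    ∃ F : MvPolynomial (Fin w) k, F ≠ 0 ∧ ∀ᶠ x in (𝒱 : Filter β), 0 < v x (aeval b F) := by
  by_contra hcon
  push Not at hcon
  have hzero : ∀ F : MvPolynomial (Fin w) k, F ≠ 0 →
      ∀ᶠ x in (𝒱 : Filter β), v x (aeval b F) = 0 := by
    intro F hF
    filter_upwards [hcon F hF, h.nonneg hb hb0 hF] with x e1 e2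
    omega
  -- the field generated by `b` is contained in the valuation ring
  have hL : ∀ x ∈ IntermediateField.adjoin k (Set.range b), x ∈ h.A := by
    intro x hx
    rw [IntermediateField.mem_adjoin_range_iff] at hx
    obtain ⟨r, s, rfl⟩ := hx
    by_cases hs : s = 0
    · rw [hs, map_zero, div_zero]
      exact h.A.zero_mem
    rw [div_eq_mul_inv]
    refine mul_mem (h.aeval_mem hb0 r) ?_
    rw [h.mem_A]
    right
    have h3 := h.mul (aeval b s) (aeval b s)⁻¹ (aeval_ne hb hs) (inv_ne_zero (aeval_ne hb hs))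
    rw [mul_inv_cancel₀ (aeval_ne hb hs)] at h3
    filter_upwards [h3, h.one, hzero s hs] with x e1 e2 e3
    omega
  have hbasis : IsTranscendenceBasis k b := by
    refine hb.isTranscendenceBasis_of_lift_trdeg_le_of_finite ?_
    rw [htr]
    simp
  have halg := hbasis.isAlgebraic_field
  have hint : IsIntegral (IntermediateField.adjoin k (Set.range b)) g :=
    (halg.isAlgebraic g).isIntegral
  obtain ⟨p, hp, hp0⟩ := hint
  let i : IntermediateField.adjoin k (Set.range b) →+* h.A :=
    { toFun := fun x => ⟨x.1, hL x.1 x.2⟩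
      map_one' := rfl
      map_mul' := fun _ _ => rfl
      map_zero' := rfl
      map_add' := fun _ _ => rfl }
  have hiA : IsIntegral h.A g := by
    refine ⟨p.map i, hp.map i, ?_⟩
    rw [Polynomial.eval₂_map]
    exact hp0
  obtain ⟨y, hy⟩ := (IsIntegrallyClosed.isIntegral_iff (R := h.A) (K := K)).1 hiA
  have hgA : g ∈ h.A := by
    rw [← hy]
    exact y.2
  rw [h.mem_A] at hgA
  have h4 := hgA.resolve_left hg0
  obtain ⟨x, hx1, hx2⟩ := (h4.and hg).exists
  omega

/-- some irreducible polynomial has positive valuation -/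
theorem Vl.exists_irr (h : Vl (k := k) 𝒱 v) (htr : Algebra.trdeg k K = w)
    (hb : AlgebraicIndependent k b)
    (hb0 : ∀ i, ∀ᶠ x in (𝒱 : Filter β), v x (b i) = 0) (g : K) (hg0 : g ≠ 0)
    (hg : ∀ᶠ x in (𝒱 : Filter β), v x g < 0) :
    ∃ F : MvPolynomial (Fin w) k, Irreducible F ∧
      ∀ᶠ x in (𝒱 : Filter β), 0 < v x (aeval b F) := by
  obtain ⟨F, hF, hpos⟩ := h.exists_pos htr hb hb0 g hg0 hg
  revert hF hpos
  induction F using WfDvdMonoid.induction_on_irreducible with
  | zero => exact fun h0 => absurd rfl h0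
  | unit u hu =>
    intro hu0 hpos
    obtain ⟨u', rfl⟩ := hu
    have h1 := h.nonneg hb hb0 (u'⁻¹).ne_zero
    have h2 := h.mul (aeval b (u' : MvPolynomial (Fin w) k))
      (aeval b ((u'⁻¹ : (MvPolynomial (Fin w) k)ˣ) : MvPolynomial (Fin w) k))
      (aeval_ne hb u'.ne_zero) (aeval_ne hb (u'⁻¹).ne_zero)
    rw [← map_mul, Units.mul_inv, map_one] at h2
    obtain ⟨x, e1, e2, e3, e4⟩ := (hpos.and (h1.and (h2.and h.one))).exists
    omega
  | mul a p ha hp ih =>
    intro _ hpos
    have h1 := h.mul (aeval b p) (aeval b a) (aeval_ne hb hp.ne_zero) (aeval_ne hb ha)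
    rw [← map_mul] at h1
    have h2 : ∀ᶠ x in (𝒱 : Filter β), 0 < v x (aeval b p) ∨ 0 < v x (aeval b a) := by
      filter_upwards [h1, hpos] with x e1 e2
      omega
    rcases Ultrafilter.eventually_or.1 h2 with h3 | h3
    · exact ⟨p, hp, h3⟩
    · exact ih ha h3

end

end Pool.Agent.N278.GF
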