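import Pool.Agent.N754.GF.Sq
import Pool.Agent.N278.GF.TwoACore

/-!
Project GF (GF/2A, helper278): few poles outside the units. The base field is algebraically closed.
-/

set_option autoImplicit false
set_option linter.unusedSectionVars false

open MvPolynomial FF Pool.Agent.W603.LV Filter

namespace Pool.Agent.N278.GF

open Pool.Agent.N754.FV Pool.Agent.N754.GF

/-- `S_2A` over algebraically closed fields -/
def S_2Ac : Prop := ∀ (k Ω α : Type) [Field k] [Field Ω] [Algebra k Ω] [CharZero k] [IsAlgClosed k]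
  (D : Sy k Ω α) (𝒰 : Ultrafilter α) (K : Type) [Field K] [Algebra k K] (E : Evl D 𝒰 K) (w : ℕ)
  (A : Fin w → Prop) (b : Fin w → K) (n : ℕ) (y : Fin n → K) (g : K),
  (∀ᶠ t in (𝒰 : Filter α), 0 ≤ D.N t) → SlowS D 𝒰 D.S → Algebra.trdeg k K = w →
  AlgebraicIndependent k b → Inp D 𝒰 A (fun i => E.ev (b i)) →
  (∀ i, ∀ᶠ t in (𝒰 : Filter α), ∀ P ∉ D.S t, 0 ≤ P.ord (E.ev (y i) t)) →
  (∀ P : Place k K, (∀ i, P.ord (b i) = 0) → (∀ i, 0 ≤ P.ord (y i)) →
    (∃ F : MvPolynomial (Fin w) k, Irreducible F ∧ P.ord (aeval b F) = 1 ∧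
      ∀ G : MvPolynomial (Fin w) k, IsRelPrime F G → P.ord (aeval b G) = 0) → 0 ≤ P.ord g) →
  ∃ B : ∀ t, Finset (Place k (D.K t)), SlowS D 𝒰 B ∧
    ∀ᶠ t in (𝒰 : Filter α), ∀ P ∉ D.S t, P.ord (E.ev g t) < 0 → P ∈ B t

section

variable {k Ω α : Type} [Field k] [Field Ω] [Algebra k Ω] [CharZero k] {D : Sy k Ω α}
  {𝒰 : Ultrafilter α} {K : Type} [Field K] [Algebra k K]

/-- evaluation of polynomials -/
theorem ev_poly (E : Evl D 𝒰 K) {w : ℕ} (b : Fin w → K) (F : MvPolynomial (Fin w) k) :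
    ∀ᶠ t in (𝒰 : Filter α), E.ev (aeval b F) t = aeval (fun i => E.ev (b i) t) F := by
  induction F using MvPolynomial.induction_on with
  | C c =>
    filter_upwards [E.const c] with t ht
    rw [aeval_C, aeval_C, ht]
  | add p q hp hq =>
    filter_upwards [hp, hq, E.add (aeval b p) (aeval b q)] with t h1 h2 h3
    rw [map_add, h3, h1, h2, map_add]
  | mul_X p i hp =>
    filter_upwards [hp, E.mul (aeval b p) (b i)] with t h1 h2
    rw [map_mul, aeval_X, h2, h1, map_mul, aeval_X]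

theorem ev_zero (E : Evl D 𝒰 K) : ∀ᶠ t in (𝒰 : Filter α), E.ev 0 t = 0 := by
  filter_upwards [E.add 0 0] with t h
  rw [add_zero] at h
  exact left_eq_add.1 h

/-- the number of the zeros and poles -/
theorem card_supp [IsAlgClosed k] {L : Type} [Field L] [Algebra k L] [IsFF k L] (f : L) :
    (((finite_support (k := k) f).toFinset.card : ℕ) : ℤ) ≤ 2 * hgt k f := by
  have h1 : ∀ P : Place k L, P.ord f ≠ 0 → P ∈ (finite_support (k := k) f).toFinset := by
    intro P hP
    rw [Set.Finite.mem_toFinset]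
    exact hP
  have h2 : ∀ P : Place k L, P.ord f⁻¹ ≠ 0 → P ∈ (finite_support (k := k) f).toFinset := by
    intro P hP
    apply h1
    intro h
    apply hP
    rw [P.ord_inv, h, neg_zero]
  have h3 : 2 * hgt k f = hgt k f + hgt k f⁻¹ := by
    rw [hgt_inv]
    ring
  rw [h3, hgt_finset _ _ h1, hgt_finset _ _ h2, ← Finset.sum_add_distrib, Finset.card_eq_sum_ones]
  push_cast
  refine Finset.sum_le_sum fun P hP => ?_
  have h4 : P.ord f ≠ 0 := by
    rw [Set.Finite.mem_toFinset] at hP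
    exact hP
  rw [P.ord_inv]
  omega

variable {𝒱 : Ultrafilter (Σ t, Place k (D.K t))}

/-- slow functions have order zero -/
theorem slow_ord [IsAlgClosed k] (hN : ∀ᶠ t in (𝒰 : Filter α), 0 ≤ D.N t)
    (hav : ∀ Z : ∀ t, Finset (Place k (D.K t)), SlowS D 𝒰 Z →
      ∀ᶠ x in (𝒱 : Filter (Σ t, Place k (D.K t))), x.2 ∉ Z x.1)
    (z : ∀ t, D.K t) (hz : SlowE D 𝒰 z) :
    ∀ᶠ x in (𝒱 : Filter (Σ t, Place k (D.K t))), x.2.ord (z x.1) = 0 := by
  have h1 : SlowS D 𝒰 fun t => (finite_support (k := k) (z t)).toFinset := by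
    refine Slow.mono (Slow.smul hz 2 (by norm_num) hN) (Eventually.of_forall fun t => ?_)
    have := card_supp (k := k) (z t)
    have h2 : ((((finite_support (k := k) (z t)).toFinset.card : ℕ) : ℤ) : ℝ) ≤
        ((2 * hgt k (z t) : ℤ) : ℝ) := by exact_mod_cast this
    push_cast at h2
    exact h2
  filter_upwards [hav _ h1] with x hx
  by_contra hcon
  exact hx ((Set.Finite.mem_toFinset _).2 hcon)

/-- polynomials in slow functions are slow -/
theorem slow_poly [IsAlgClosed k] (hN : ∀ᶠ t in (𝒰 : Filter α), 0 ≤ D.N t) {w : ℕ}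
    (A : Set (Fin w)) (b : Fin w → ∀ t, D.K t) (hs : ∀ i ∈ A, SlowE D 𝒰 (b i))
    (F : MvPolynomial (Fin w) k) (hF : F ∈ supported k A) :
    SlowE D 𝒰 fun t => aeval (fun i => b i t) F := by
  unfold MvPolynomial.supported at hF
  induction hF using Algebra.adjoin_induction with
  | mem x hx =>
    obtain ⟨i, hi, rfl⟩ := hx
    refine (hs i hi).congr (Eventually.of_forall fun t => ?_)
    rw [aeval_X]
  | algebraMap c =>
    refine (SlowE.const hN fun _ => c).congr (Eventually.of_forall fun t => ?_)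
    rw [AlgHom.commutes]
  | add x y _ _ hx hy =>
    refine (hx.add hy).congr (Eventually.of_forall fun t => ?_)
    rw [map_add]
  | mul x y _ _ hx hy =>
    refine (hx.mul hy).congr (Eventually.of_forall fun t => ?_)
    rw [map_mul]

end

/-- few poles outside the units -/
theorem two_a (hP : S_PLC) (hU : S_UF) : S_2Ac := by
  classical
  intro k Ω α _ _ _ _ _ D 𝒰 K _ _ E w A b n y g hN hS htr hb hin hy hpl
  by_cases hg0 : g = 0
  · refine ⟨fun _ => ∅, ?_, ?_⟩
    · refine Slow.mono (Slow.zero hN) (Eventually.of_forall fun t => ?_)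
      simp
    · filter_upwards [ev_zero E] with t ht P _ h
      rw [hg0, ht, P.ord_zero] at h
      exact absurd h (lt_irrefl _)
  set B : ∀ t, Finset (Place k (D.K t)) := fun t =>
    (finite_support (k := k) (E.ev g t)).toFinset.filter
      (fun P => P ∉ D.S t ∧ P.ord (E.ev g t) < 0) with hB
  by_cases hslow : SlowS D 𝒰 B
  · refine ⟨B, hslow, Eventually.of_forall fun t P hPS hPg => ?_⟩
    rw [hB]
    rw [Finset.mem_filter, Set.Finite.mem_toFinset]
    exact ⟨hPg.ne, hPS, hPg⟩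
  exfalso
  obtain ⟨𝒱, hVB, hVT, hVZ⟩ := hU α 𝒰 D.N (fun t => Place k (D.K t)) B hN hslow
  have hav : ∀ Z : ∀ t, Finset (Place k (D.K t)), SlowS D 𝒰 Z →
      ∀ᶠ x in (𝒱 : Filter (Σ t, Place k (D.K t))), x.2 ∉ Z x.1 := fun Z hZ => hVZ Z hZ
  have lift : ∀ p : α → Prop, (∀ᶠ t in (𝒰 : Filter α), p t) →
      ∀ᶠ x in (𝒱 : Filter (Σ t, Place k (D.K t))), p x.1 := fun p hp => hVT _ hp
  have hSav := hav D.S hS
  set v : (Σ t, Place k (D.K t)) → K → ℤ := fun x f => x.2.ord (E.ev f x.1) with hv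
  have hVl : Vl (k := k) 𝒱 v := by
    refine ⟨?_, ?_, ?_⟩
    · intro f h hf hh
      filter_upwards [lift _ (E.mul f h), lift _ (E.ne f hf), lift _ (E.ne h hh)] with x e1 e2 e3
      show x.2.ord (E.ev (f * h) x.1) = x.2.ord (E.ev f x.1) + x.2.ord (E.ev h x.1)
      rw [e1, x.2.ord_mul e2 e3]
    · intro f h hf hh hfh
      filter_upwards [lift _ (E.add f h), lift _ (E.ne f hf), lift _ (E.ne h hh),
        lift _ (E.ne (f + h) hfh)] with x e1 e2 e3 e4
      show min (x.2.ord (E.ev f x.1)) (x.2.ord (E.ev h x.1)) ≤ x.2.ord (E.ev (f + h) x.1)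
      rw [e1] at e4 ⊢
      exact x.2.ord_add e2 e3 e4
    · intro c hc
      filter_upwards [lift _ (E.const c)] with x e1
      show x.2.ord (E.ev (algebraMap k K c) x.1) = 0
      rw [e1]
      exact x.2.ord_const hc
  have hb0 : ∀ i, ∀ᶠ x in (𝒱 : Filter (Σ t, Place k (D.K t))), v x (b i) = 0 := by
    intro i
    by_cases hi : A i
    · exact slow_ord hN hav (E.ev (b i)) (hin.slow i hi)
    · filter_upwards [lift _ (hin.unit i hi), hSav] with x e1 e2
      exact e1.2 x.2 e2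
  have hg : ∀ᶠ x in (𝒱 : Filter (Σ t, Place k (D.K t))), v x g < 0 := by
    filter_upwards [hVB] with x hx
    rw [hB, Finset.mem_filter] at hx
    exact hx.2.2
  obtain ⟨F, hF, hpos⟩ := hVl.exists_irr htr hb hb0 g hg0 hg
  -- the variables of `F`
  have hvar : ∃ j, ¬ A j ∧ 0 < F.degreeOf j := by
    by_contra hcon
    push Not at hcon
    have h1 : F ∈ supported k {i | A i} := by
      rw [mem_supported]
      intro j hj
      by_contra hj'
      have h2 := hcon j hj'
      rw [Finset.mem_coe, mem_vars_iff_degreeOf_ne_zero] at hj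
      omega
    have h2 := slow_poly hN {i | A i} (fun i => E.ev (b i)) (fun i hi => hin.slow i hi) F h1
    have h3 := slow_ord hN hav _ h2
    obtain ⟨x, e1, e2, e3⟩ := (h3.and (hpos.and (lift _ (ev_poly E b F)))).exists
    have e4 : v x (aeval b F) = x.2.ord (E.ev (aeval b F) x.1) := rfl
    rw [e4, e3] at e2
    omega
  have hass : ∀ j, ¬ A j → ¬ Associated F (X j) := by
    intro j _ hA
    obtain ⟨u, hu⟩ := hA
    have h1 := hVl.mul (aeval b F) (aeval b (u : MvPolynomial (Fin w) k)) (aeval_ne hb hF.ne_zero)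
      (aeval_ne hb u.ne_zero)
    rw [← map_mul, hu, aeval_X] at h1
    obtain ⟨x, e1, e2, e3, e4⟩ := (h1.and (hpos.and ((hVl.nonneg hb hb0 u.ne_zero).and
      (hb0 j)))).exists
    omega
  obtain ⟨Z, hZ, hZ2⟩ := hin.trunc F hF hvar hass
  have hone : ∀ᶠ x in (𝒱 : Filter (Σ t, Place k (D.K t))), v x (aeval b F) = 1 := by
    filter_upwards [hpos, hav Z hZ, lift _ hZ2, lift _ (ev_poly E b F)] with x e1 e2 e3 e4
    have e5 := e3 x.2 e2
    have e6 : v x (aeval b F) = x.2.ord (E.ev (aeval b F) x.1) := rfl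
    rw [e6, e4] at e1 ⊢
    have e7 : ¬ (2 ≤ x.2.ord (aeval (fun i => E.ev (b i) x.1) F)) := fun h => e5 (Or.inr h)
    omega
  have hcop : ∀ G, IsRelPrime F G →
      ∀ᶠ x in (𝒱 : Filter (Σ t, Place k (D.K t))), v x (aeval b G) = 0 := by
    intro G hG
    have hG0 : G ≠ 0 := by
      rintro rfl
      exact hF.not_isUnit (isRelPrime_zero_right.1 hG)
    obtain ⟨Z', hZ', hZ2'⟩ := hin.gcd F G hF.ne_zero hG
    filter_upwards [hone, hav Z' hZ', lift _ hZ2', lift _ (ev_poly E b F), lift _ (ev_poly E b G),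
      hVl.nonneg hb hb0 hG0] with x e1 e2 e3 e4 e5 e6
    have e7 := e3 x.2 e2
    have e8 : v x (aeval b F) = x.2.ord (E.ev (aeval b F) x.1) := rfl
    have e9 : v x (aeval b G) = x.2.ord (E.ev (aeval b G) x.1) := rfl
    rw [e8, e4] at e1
    rw [e9, e5] at e6 ⊢
    have e10 : Ge x.2 1 (aeval (fun i => E.ev (b i) x.1) F) := Or.inr e1.ge
    have e11 : ¬ (1 ≤ x.2.ord (aeval (fun i => E.ev (b i) x.1) G)) := fun h =>
      e7 ⟨e10, Or.inr h⟩
    omega
  obtain ⟨P, hPv⟩ := hP k K w htr b hb (Σ t, Place k (D.K t)) 𝒱 v hVl.mul hVl.add hVl.const F hF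
    hone hcop
  have hval : ∀ (f : K) (c : ℤ), f ≠ 0 →
      (∀ᶠ x in (𝒱 : Filter (Σ t, Place k (D.K t))), v x f = c) → P.ord f = c := by
    intro f c hf h
    obtain ⟨x, e1, e2⟩ := (h.and (hPv f hf)).exists
    exact e2.symm.trans e1
  have h1 : 0 ≤ P.ord g := by
    refine hpl P ?_ ?_ ⟨F, hF, hval _ 1 (aeval_ne hb hF.ne_zero) hone, ?_⟩
    · intro i
      refine hval _ 0 ?_ (hb0 i)
      have := hb.ne_zero i
      exact this
    · intro i
      by_cases hyi : y i = 0
      · rw [hyi, P.ord_zero]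
      obtain ⟨x, e1, e2, e3⟩ := ((lift _ (hy i)).and (hSav.and (hPv (y i) hyi))).exists
      rw [← e3]
      exact e1 x.2 e2
    · intro G hG
      have hG0 : G ≠ 0 := by
        rintro rfl
        exact hF.not_isUnit (isRelPrime_zero_right.1 hG)
      exact hval _ 0 (aeval_ne hb hG0) (hcop G hG)
  obtain ⟨x, e1, e2⟩ := (hg.and (hPv g hg0)).exists
  omega

end Pool.Agent.N278.GF
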